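import Pool.Agent.Helper54.PL.EL4

set_option autoImplicit false

open MeasureTheory Set Filter Topology
open scoped InnerProductSpace

namespace Pool.Agent.Helper54.PL
open Pool.Agent.Helper82.PL

/-- Euler-Lagrange along an almost minimizing sequence -/
theorem el_ok (hI : stmtInt) (hL : stmtLow) (hE : stmtExt) : stmtEL := by
  intro b0 V C0 hB j hj w hw hwb hlim φ hφ hc hs
  obtain ⟨τ0, hτ0, C1, hstep⟩ := step hI hE hB hφ hc hs
  obtain ⟨B, hBl⟩ := hL b0 V C0 hB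
  have hbdd : ∃ Jm : ℝ, ∀ n, J b0 V (w n) ≤ Jm := by
    obtain ⟨Jm, hJm⟩ := hlim.bddAbove_range
    exact ⟨Jm, fun n => hJm ⟨n, rfl⟩⟩
  obtain ⟨Jm, hJm⟩ := hbdd
  set C2 : ℝ := max (4 * (Jm + B) + C1) 0 with hC2
  have hC20 : 0 ≤ C2 := le_max_right _ _
  have key : ∀ n, ∀ τ : ℝ, |τ| ≤ τ0 → 
      j ≤ J b0 V (w n) + 4 * τ * (∫ x, ii b0 V φ (w n) x) + τ ^ 2 * C2 := by
    intro n τ hτ
    obtain ⟨w', hw', hle⟩ := hstep (w n) (hw n) (hwb n) τ hτ
    refine (hj w' hw').trans (hle.trans ?_)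
    have h1 := hBl (w n) (hw n) (hwb n)
    have h2 : 4 * (∫ x in D, Real.exp (4 * (b0 x + w n x)) * 
          ‖gradient b0 x + gradient (w n) x‖ ^ 4) + C1 ≤ C2 := by
      refine le_trans ?_ (le_max_left _ _)
      linarith [hJm n]
    have := mul_le_mul_of_nonneg_left h2 (sq_nonneg τ)
    linarith
  have key2 : ∀ n, ∀ s : ℝ, 0 < s → s ≤ τ0 → 
      4 * s * |∫ x, ii b0 V φ (w n) x| ≤ (J b0 V (w n) - j) + s ^ 2 * C2 := by
    intro n s hs0 hs1
    have k1 := key n s (by rw [abs_of_pos hs0]; exact hs1)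
    have k2 := key n (-s) (by rw [abs_neg, abs_of_pos hs0]; exact hs1)
    rcases abs_cases (∫ x, ii b0 V φ (w n) x) with ⟨h, _⟩ | ⟨h, _⟩ <;> rw [h] <;> nlinarith
  change Tendsto (fun n => ∫ x, ii b0 V φ (w n) x) atTop (𝓝 0)
  rw [Metric.tendsto_atTop]
  intro ε hε
  set s : ℝ := min τ0 (ε / (C2 + 1)) with hsdef
  have hs0 : 0 < s := by positivity
  have hs1 : s ≤ τ0 := min_le_left _ _
  have hs2 : s * C2 ≤ ε := by
    have h1 : s ≤ ε / (C2 + 1) := min_le_right _ _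
    calc s * C2 ≤ (ε / (C2 + 1)) * C2 := by gcongr
      _ = ε * (C2 / (C2 + 1)) := by ring
      _ ≤ ε * 1 := by
        gcongr
        rw [div_le_one (by positivity)]
        linarith
      _ = ε := mul_one _
  obtain ⟨N, hN⟩ := (Metric.tendsto_atTop.1 hlim) (s * ε) (by positivity)
  refine ⟨N, fun n hn => ?_⟩
  have h3 := hN n hn
  rw [Real.dist_eq] at h3
  have h4 : J b0 V (w n) - j ≤ s * ε := ((le_abs_self _).trans_lt h3).le
  have h5 := key2 n s hs0 hs1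
  rw [Real.dist_eq, sub_zero]
  have h6 : 4 * s * |∫ x, ii b0 V φ (w n) x| ≤ s * ε + s * ε := by
    have : s ^ 2 * C2 ≤ s * ε := by
      calc s ^ 2 * C2 = s * (s * C2) := by ring
        _ ≤ s * ε := by gcongr
    linarith
  have h7 : 4 * |∫ x, ii b0 V φ (w n) x| ≤ 2 * ε := by
    by_contra hcon
    push Not at hcon
    have := mul_lt_mul_of_pos_left hcon hs0
    nlinarith
  linarith

end Pool.Agent.Helper54.PL
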