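import Pool.Agent.Helper82.PL.Defs

set_option autoImplicit false

open MeasureTheory Set Filter Topology
open scoped InnerProductSpace

namespace Pool.Agent.Helper54.PL
open Pool.Agent.Helper82.PL

/-- scalar/vector expansion inequality -/
lemma quart_le (a b : E2) (τ : ℝ) (hτ : |τ| ≤ 1) :
    ‖a + τ • b‖ ^ 4 ≤ ‖a‖ ^ 4 + 4 * τ * (‖a‖ ^ 2 * inner ℝ a b) +
      τ ^ 2 * (4 * ‖a‖ ^ 4 + 7 * ‖b‖ ^ 4) := by
  have h1 : ‖a + τ • b‖ ^ 2 = ‖a‖ ^ 2 + 2 * (τ * inner ℝ a b) + τ ^ 2 * ‖b‖ ^ 2 := by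
    rw [norm_add_sq_real, inner_smul_right, norm_smul, Real.norm_eq_abs, mul_pow, sq_abs]
  have h2 : ‖a + τ • b‖ ^ 4 = (‖a‖ ^ 2 + 2 * (τ * inner ℝ a b) + τ ^ 2 * ‖b‖ ^ 2) ^ 2 := by
    rw [← h1]; ring
  have hp : |inner ℝ a b| ≤ ‖a‖ * ‖b‖ := abs_real_inner_le_norm a b
  rw [h2]
  set p : ℝ := inner ℝ a b
  set A := ‖a‖ with hA
  set B := ‖b‖ with hB
  have hA0 : 0 ≤ A := norm_nonneg _
  have hB0 : 0 ≤ B := norm_nonneg _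
  have hp2 : p ^ 2 ≤ A ^ 2 * B ^ 2 := by
    have := pow_le_pow_left₀ (abs_nonneg p) hp 2
    rw [sq_abs] at this
    nlinarith
  have hτ2 : τ ^ 2 ≤ 1 := by
    have := pow_le_pow_left₀ (abs_nonneg τ) hτ 2
    rw [sq_abs] at this
    linarith
  have hτp : τ * p ≤ A * B := by
    calc τ * p ≤ |τ * p| := le_abs_self _
      _ = |τ| * |p| := abs_mul _ _
      _ ≤ 1 * (A * B) := by gcongr
      _ = A * B := one_mul _
  have key : 4 * p ^ 2 + τ ^ 2 * B ^ 4 + 2 * A ^ 2 * B ^ 2 + 4 * (τ * p) * B ^ 2 ≤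
      4 * A ^ 4 + 7 * B ^ 4 := by
    have e1 : τ ^ 2 * B ^ 4 ≤ B ^ 4 := by
      have : 0 ≤ B ^ 4 := by positivity
      nlinarith
    have e2 : (τ * p) * B ^ 2 ≤ (A * B) * B ^ 2 := by gcongr
    nlinarith [sq_nonneg (A ^ 2 - B ^ 2), sq_nonneg (A - B), sq_nonneg (A * B - B ^ 2),
      mul_nonneg hA0 hB0]
  have hτ0 : 0 ≤ τ ^ 2 := sq_nonneg _
  nlinarith [mul_le_mul_of_nonneg_left key hτ0]

lemma quart_abs (v f τ : ℝ) (hτ : |τ| ≤ 1) :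
    |(v + τ * f) ^ 4 - v ^ 4 - 4 * τ * (v ^ 3 * f)| ≤ τ ^ 2 * (6 * v ^ 4 + 12 * f ^ 4) := by
  have e : (v + τ * f) ^ 4 - v ^ 4 - 4 * τ * (v ^ 3 * f) =
      τ ^ 2 * (6 * v ^ 2 * f ^ 2 + 4 * (τ * v) * f ^ 3 + τ ^ 2 * f ^ 4) := by ring
  rw [e, abs_mul, abs_of_nonneg (sq_nonneg τ)]
  have hτ2 : τ ^ 2 ≤ 1 := by
    have := pow_le_pow_left₀ (abs_nonneg τ) hτ 2
    rw [sq_abs] at this
    linarith
  have h3 : |(τ * v) * f ^ 3| ≤ v ^ 4 + f ^ 4 := by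
    have : |τ * v * f ^ 3| ≤ |v| * |f| ^ 3 := by
      rw [abs_mul, abs_mul, abs_pow]
      have : |τ| * |v| ≤ |v| := by nlinarith [abs_nonneg v]
      gcongr
    refine this.trans ?_
    have hv : v ^ 4 = |v| ^ 4 := by
      rw [show (4:ℕ) = 2 * 2 by norm_num, pow_mul, pow_mul, sq_abs]
    have hf : f ^ 4 = |f| ^ 4 := by
      rw [show (4:ℕ) = 2 * 2 by norm_num, pow_mul, pow_mul, sq_abs]
    rw [hv, hf]
    set A := |v|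
    set B := |f|
    have hA0 : 0 ≤ A := abs_nonneg _
    have hB0 : 0 ≤ B := abs_nonneg _
    nlinarith [sq_nonneg (A ^ 2 - B ^ 2), sq_nonneg (A - B), sq_nonneg (A * B - B ^ 2),
      mul_nonneg hA0 hB0]
  have h4 : |6 * v ^ 2 * f ^ 2 + 4 * (τ * v) * f ^ 3 + τ ^ 2 * f ^ 4| ≤
      6 * v ^ 4 + 12 * f ^ 4 := by
    have h31 := (abs_le.1 h3).1
    have h32 := (abs_le.1 h3).2
    have hf4 : 0 ≤ f ^ 4 := by positivity
    have hv4 : 0 ≤ v ^ 4 := by positivity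
    have h5 : 0 ≤ τ ^ 2 * f ^ 4 := by positivity
    have h6 : τ ^ 2 * f ^ 4 ≤ f ^ 4 := by nlinarith
    have h7 : 0 ≤ v ^ 2 * f ^ 2 := by positivity
    have h8 : 2 * (v ^ 2 * f ^ 2) ≤ v ^ 4 + f ^ 4 := by nlinarith [sq_nonneg (v ^ 2 - f ^ 2)]
    rw [abs_le]
    constructor
    · nlinarith
    · nlinarith
  exact mul_le_mul_of_nonneg_left h4 (sq_nonneg τ)

end Pool.Agent.Helper54.PL
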