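import Pool.Agent.Helper82.PL.Defs

set_option autoImplicit false

open MeasureTheory Set Filter Topology
open scoped InnerProductSpace

namespace Pool.Agent.Helper54.PL
open Pool.Agent.Helper82.PL

lemma D_open : IsOpen D := isOpen_lt continuous_const continuous_norm

lemma meas_gradient (f : E2 → ℝ) : Measurable (gradient f) := by
  have h := measurable_fderiv ℝ f
  exact (InnerProductSpace.toDual ℝ E2).symm.continuous.measurable.comp h

/-- the new perturbation -/
noncomputable def wn (b0 w φ : E2 → ℝ) (τ : ℝ) (x : E2) : ℝ :=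
  w x + Real.log (1 + τ * φ x * Real.exp (-(b0 x) - w x))

lemma wn_exp (b0 w φ : E2 → ℝ) (τ : ℝ) (x : E2) 
    (h : 0 < 1 + τ * φ x * Real.exp (-(b0 x) - w x)) :
    Real.exp (b0 x + wn b0 w φ τ x) = Real.exp (b0 x + w x) + τ * φ x := by
  unfold wn
  rw [← add_assoc, Real.exp_add, Real.exp_log h, mul_add, mul_one]
  have : Real.exp (b0 x + w x) * (τ * φ x * Real.exp (-(b0 x) - w x)) =
      τ * φ x * (Real.exp (b0 x + w x) * Real.exp (-(b0 x) - w x)) := by ring
  rw [this, ← Real.exp_add]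
  simp

lemma hasGrad_exp {f : E2 → ℝ} {f' : E2} {x : E2} (h : HasGradientAt f f' x) :
    HasGradientAt (fun y => Real.exp (f y)) (Real.exp (f x) • f') x := by
  rw [hasGradientAt_iff_hasFDerivAt] at h ⊢
  have := h.exp
  simpa using this

lemma grad_calc (b0 w φ : E2 → ℝ) (τ : ℝ) (x : E2) (hb : DifferentiableAt ℝ b0 x)
    (hw : DifferentiableAt ℝ w x) (hφ : DifferentiableAt ℝ φ x)
    (hpos : 0 < 1 + τ * φ x * Real.exp (-(b0 x) - w x)) :
    Real.exp (b0 x + wn b0 w φ τ x) • (gradient b0 x + gradient (wn b0 w φ τ) x) =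
      Real.exp (b0 x + w x) • (gradient b0 x + gradient w x) + τ • gradient φ x := by
  have hcont : ContinuousAt (fun y => 1 + τ * φ y * Real.exp (-(b0 y) - w y)) x := by
    have h1 := hb.continuousAt
    have h2 := hw.continuousAt
    have h3 := hφ.continuousAt
    fun_prop
  have hev : ∀ᶠ y in 𝓝 x, 0 < 1 + τ * φ y * Real.exp (-(b0 y) - w y) :=
    hcont.eventually (lt_mem_nhds hpos)
  have heq : (fun y => Real.exp (b0 y + wn b0 w φ τ y)) =ᶠ[𝓝 x]
      fun y => Real.exp (b0 y + w y) + τ * φ y :=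
    hev.mono fun y hy => wn_exp b0 w φ τ y hy
  have hwd : DifferentiableAt ℝ (wn b0 w φ τ) x := by
    unfold wn
    refine hw.add (DifferentiableAt.log ?_ hpos.ne')
    fun_prop
  have e1 : HasGradientAt (fun y => Real.exp (b0 y + wn b0 w φ τ y))
      (Real.exp (b0 x + wn b0 w φ τ x) • (gradient b0 x + gradient (wn b0 w φ τ) x)) x := by
    refine hasGrad_exp (f := fun y => b0 y + wn b0 w φ τ y) ?_
    have h1 := hb.hasGradientAt
    have h2 := hwd.hasGradientAt
    rw [hasGradientAt_iff_hasFDerivAt] at h1 h2 ⊢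
    simpa using h1.fun_add h2
  have e2 : HasGradientAt (fun y => Real.exp (b0 y + w y) + τ * φ y)
      (Real.exp (b0 x + w x) • (gradient b0 x + gradient w x) + τ • gradient φ x) x := by
    have h1 := hb.hasGradientAt
    have h2 := hw.hasGradientAt
    have h3 := hφ.hasGradientAt
    have h4 : HasGradientAt (fun y => b0 y + w y) (gradient b0 x + gradient w x) x := by
      rw [hasGradientAt_iff_hasFDerivAt] at h1 h2 ⊢
      simpa using h1.fun_add h2
    have h5 := hasGrad_exp h4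
    rw [hasGradientAt_iff_hasFDerivAt] at h3 h5 ⊢
    simpa using h5.fun_add (h3.const_mul τ)
  exact e1.unique (e2.congr_of_eventuallyEq heq)

/-- local Lipschitz property of a composition -/
lemma locLip_comp (S : Set E2) (hS : IsOpen S) (u v f : E2 → ℝ) (hu : ContDiffOn ℝ 1 u S)
    (hv : ∃ K : NNReal, LipschitzWith K v) (hf : ContDiff ℝ 1 f) (Ψ : ℝ × ℝ × ℝ → ℝ)
    (hΨ : ∀ x ∈ S, ContDiffAt ℝ 1 Ψ (u x, v x, f x)) :
    LocallyLipschitzOn S (fun x => Ψ (u x, v x, f x)) := by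
  intro x hx
  obtain ⟨Kv, hKv⟩ := hv
  obtain ⟨Ku, tu, htu, hKu⟩ := (hu.contDiffAt (hS.mem_nhds hx)).exists_lipschitzOnWith
  obtain ⟨Kf, tf, htf, hKf⟩ := (hf.contDiffAt (x := x)).exists_lipschitzOnWith
  obtain ⟨KΨ, tΨ, htΨ, hKΨ⟩ := (hΨ x hx).exists_lipschitzOnWith
  have hcont : ContinuousAt (fun y => (u y, v y, f y)) x := by
    refine ContinuousAt.prodMk (hu.contDiffAt (hS.mem_nhds hx)).continuousAt ?_
    exact ContinuousAt.prodMk hKv.continuous.continuousAt hf.continuous.continuousAt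
  have hpre : (fun y => (u y, v y, f y)) ⁻¹' tΨ ∈ 𝓝 x := hcont htΨ
  refine ⟨KΨ * max Ku (max Kv Kf), tu ∩ tf ∩ (fun y => (u y, v y, f y)) ⁻¹' tΨ, 
    mem_nhdsWithin_of_mem_nhds (inter_mem (inter_mem htu htf) hpre), ?_⟩
  refine LipschitzOnWith.comp hKΨ ?_ (fun y hy => hy.2)
  refine LipschitzOnWith.prodMk (hKu.mono fun y hy => hy.1.1) ?_
  exact LipschitzOnWith.prodMk (hKv.lipschitzOnWith) (hKf.mono fun y hy => hy.1.2)

lemma isAdm_wn (hE : stmtExt) {b0 V : E2 → ℝ} {C0 : ℝ} (hB : Base b0 V C0) {w φ : E2 → ℝ} 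
    (hw : IsAdm w) (hφ : ContDiff ℝ (⊤ : ℕ∞) φ) (hc : HasCompactSupport φ) (hs : tsupport φ ⊆ D)
    {τ : ℝ} (hpos : ∀ x, 0 < 1 + τ * φ x * Real.exp (-(b0 x) - w x)) :
    IsAdm (wn b0 w φ τ) := by
  set f : E2 → ℝ := fun x => Real.log (1 + τ * φ x * Real.exp (-(b0 x) - w x)) with hf
  have hf0 : ∀ x, x ∉ tsupport φ → f x = 0 := by
    intro x hx
    have : φ x = 0 := image_eq_zero_of_notMem_tsupport hx
    simp [hf, this]
  have hlip : LocallyLipschitzOn D f := by
    refine locLip_comp D D_open b0 w φ hB.c1 hw.1 (hφ.of_le (by exact_mod_cast le_top))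
      (fun p => Real.log (1 + τ * p.2.2 * Real.exp (-p.1 - p.2.1))) ?_
    intro x _
    refine ContDiffAt.log ?_ (hpos x).ne'
    fun_prop
  obtain ⟨L, hL⟩ := hE D (tsupport φ) f D_open hc hs hf0 hlip
  obtain ⟨K, hK⟩ := hw.1
  have hfc : HasCompactSupport f := HasCompactSupport.intro hc hf0
  have hft : tsupport f ⊆ tsupport φ := by
    refine closure_minimal ?_ (isClosed_tsupport φ)
    intro x hx
    by_contra h
    exact hx (hf0 x h)
  have hfun : wn b0 w φ τ = w + f := by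
    funext x; rfl
  refine ⟨⟨K + L, ?_⟩, ?_, ?_⟩
  · rw [hfun]; exact hK.add hL
  · rw [hfun]; exact hw.2.1.add hfc
  · rw [hfun]
    exact (tsupport_add w f).trans (union_subset hw.2.2 (hft.trans hs))

end Pool.Agent.Helper54.PL
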