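import Pool.Agent.Helper54.PL.EL1
import Pool.Agent.Helper54.PL.EL2

set_option autoImplicit false

open MeasureTheory Set Filter Topology
open scoped InnerProductSpace

namespace Pool.Agent.Helper54.PL
open Pool.Agent.Helper82.PL

/-- integrand of the first variation -/
noncomputable def ii (b0 V φ w : E2 → ℝ) (x : E2) : ℝ :=
  (Real.exp (b0 x + w x)) ^ 3 *
      (‖gradient b0 x + gradient w x‖ ^ 2 *
        inner ℝ (gradient b0 x + gradient w x) (gradient φ x) + V x * φ x)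

lemma grad_off {φ : E2 → ℝ} {x : E2} (hx : x ∉ tsupport φ) : gradient φ x = 0 := by
  unfold gradient
  rw [fderiv_of_notMem_tsupport ℝ hx]
  simp

lemma exp4 (a : ℝ) : Real.exp (4 * a) = Real.exp a ^ 4 := by
  rw [← Real.exp_nat_mul]; norm_num

/-- pointwise bound of the density -/
lemma pointwise {b0 V : E2 → ℝ} {C0 : ℝ} (hB : Base b0 V C0) {w φ : E2 → ℝ} 
    (hφ : ContDiff ℝ (⊤ : ℕ∞) φ) {M : ℝ} (hM : ∀ x, |φ x| ≤ M)
    {τ : ℝ} (hpos : ∀ x, 0 < 1 + τ * φ x * Real.exp (-(b0 x) - w x)) (hτ : |τ| ≤ 1)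
    (hwb : ∀ x ∈ D, |w x| ≤ C0) {x : E2} (hx : x ∈ D) (hwd : DifferentiableAt ℝ w x) :
    Real.exp (4 * (b0 x + wn b0 w φ τ x)) * (‖gradient b0 x + gradient (wn b0 w φ τ) x‖ ^ 4 + V x) ≤
      (Real.exp (4 * (b0 x + w x)) * ‖gradient b0 x + gradient w x‖ ^ 4 +
        Real.exp (4 * (b0 x + w x)) * V x) + 4 * τ * ii b0 V φ w x +
      τ ^ 2 * (4 * (Real.exp (4 * (b0 x + w x)) * ‖gradient b0 x + gradient w x‖ ^ 4) +
        (7 * ‖gradient φ x‖ ^ 4 + 
          (tsupport φ).indicator (fun _ => C0 * (6 * Real.exp (8 * C0) + 12 * M ^ 4)) x)) := by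
  have hbd : DifferentiableAt ℝ b0 x := 
    (hB.c1.contDiffAt (D_open.mem_nhds hx)).differentiableAt (by norm_num)
  have hφd : DifferentiableAt ℝ φ x := hφ.differentiable (by simp) x
  have hg := grad_calc b0 w φ τ x hbd hwd hφd (hpos x)
  have he := wn_exp b0 w φ τ x (hpos x)
  have h1 : Real.exp (4 * (b0 x + wn b0 w φ τ x)) *
      (‖gradient b0 x + gradient (wn b0 w φ τ) x‖ ^ 4 + V x) = 
      ‖Real.exp (b0 x + w x) • (gradient b0 x + gradient w x) + τ • gradient φ x‖ ^ 4 +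
      (Real.exp (b0 x + w x) + τ * φ x) ^ 4 * V x := by
    rw [← hg, ← he, norm_smul, Real.norm_of_nonneg (Real.exp_pos _).le, mul_pow, exp4]
    ring
  rw [h1, exp4 (b0 x + w x)]
  set v := Real.exp (b0 x + w x) with hv
  have hv0 : 0 < v := Real.exp_pos _
  set β := gradient b0 x + gradient w x with hβ
  have h2 := quart_le (v • β) (gradient φ x) τ hτ
  rw [norm_smul, Real.norm_of_nonneg hv0.le, real_inner_smul_left] at h2
  have h3 : V x * ((v + τ * φ x) ^ 4 - v ^ 4 - 4 * τ * (v ^ 3 * φ x)) ≤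
      τ ^ 2 * (tsupport φ).indicator (fun _ => C0 * (6 * Real.exp (8 * C0) + 12 * M ^ 4)) x := by
    by_cases hK : x ∈ tsupport φ
    · rw [indicator_of_mem hK]
      have h4 := quart_abs v (φ x) τ hτ
      have h5 : |V x| ≤ C0 := by
        refine (hB.vb x hx).trans ?_
        have hC : 0 ≤ C0 := (abs_nonneg _).trans (hwb x hx)
        have : (1:ℝ) ≤ ‖x‖ ^ 4 := one_le_pow₀ (le_of_lt hx)
        rw [div_le_iff₀ (by positivity)]
        nlinarith
      have h6 : v ^ 4 ≤ Real.exp (8 * C0) := by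
        rw [hv, ← exp4]
        have a1 := (abs_le.1 (hB.bd x hx)).2
        have a2 := (abs_le.1 (hwb x hx)).2
        exact Real.exp_le_exp.2 (by linarith)
      have h7 : φ x ^ 4 ≤ M ^ 4 := by
        have : φ x ^ 4 = |φ x| ^ 4 := by
          rw [show (4:ℕ) = 2 * 2 by norm_num, pow_mul, pow_mul, sq_abs]
        rw [this]
        exact pow_le_pow_left₀ (abs_nonneg _) (hM x) 4
      calc V x * ((v + τ * φ x) ^ 4 - v ^ 4 - 4 * τ * (v ^ 3 * φ x))
          ≤ |V x * ((v + τ * φ x) ^ 4 - v ^ 4 - 4 * τ * (v ^ 3 * φ x))| := le_abs_self _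
        _ = |V x| * |(v + τ * φ x) ^ 4 - v ^ 4 - 4 * τ * (v ^ 3 * φ x)| := abs_mul _ _
        _ ≤ C0 * (τ ^ 2 * (6 * Real.exp (8 * C0) + 12 * M ^ 4)) := by
            have hC : 0 ≤ C0 := (abs_nonneg _).trans (hwb x hx)
            refine mul_le_mul h5 (h4.trans ?_) (abs_nonneg _) hC
            gcongr
        _ = _ := by ring
    · have : φ x = 0 := image_eq_zero_of_notMem_tsupport hK
      rw [indicator_of_notMem hK, this]
      simp
  unfold ii
  rw [← hβ, ← hv]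
  have e1 : (v * ‖β‖) ^ 4 = v ^ 4 * ‖β‖ ^ 4 := by ring
  have e2 : (v * ‖β‖) ^ 2 * (v * inner ℝ β (gradient φ x)) = 
    v ^ 3 * (‖β‖ ^ 2 * inner ℝ β (gradient φ x)) := by ring
  rw [e1, e2] at h2
  nlinarith [h2, h3]

end Pool.Agent.Helper54.PL
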