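import Pool.Agent.Helper54.PL.EL3

set_option autoImplicit false

open MeasureTheory Set Filter Topology
open scoped InnerProductSpace

namespace Pool.Agent.Helper54.PL
open Pool.Agent.Helper82.PL

lemma C0_nonneg {b0 V : E2 → ℝ} {C0 : ℝ} (hB : Base b0 V C0) : 0 ≤ C0 := by
  have h : (EuclideanSpace.single 0 2 : E2) ∈ D := by
    unfold D
    simp
  exact (abs_nonneg _).trans (hB.bd _ h)

lemma cube_mul_le (A B : ℝ) (hA : 0 ≤ A) (hB : 0 ≤ B) : A ^ 3 * B ≤ A ^ 4 + B ^ 4 := by
  nlinarith [sq_nonneg (A ^ 2 - B ^ 2), sq_nonneg (A - B), sq_nonneg (A * B - A ^ 2),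
      mul_nonneg hA hB]

lemma cont_grad {φ : E2 → ℝ} (hφ : ContDiff ℝ (⊤ : ℕ∞) φ) : Continuous (gradient φ) := by
  have h : Continuous (fderiv ℝ φ) := hφ.continuous_fderiv (by simp)
  exact (InnerProductSpace.toDual ℝ E2).symm.continuous.comp h

lemma comp_grad {φ : E2 → ℝ} (hc : HasCompactSupport φ) : HasCompactSupport (gradient φ) := 
  HasCompactSupport.intro hc fun _ hx => grad_off hx

lemma int_grad4 {φ : E2 → ℝ} (hφ : ContDiff ℝ (⊤ : ℕ∞) φ) (hc : HasCompactSupport φ) :
    Integrable (fun x => ‖gradient φ x‖ ^ 4) := by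
  refine Continuous.integrable_of_hasCompactSupport ((cont_grad hφ).norm.pow 4) ?_
  exact HasCompactSupport.intro hc fun x hx => by simp [grad_off hx]

lemma int_ii (hI : stmtInt) {b0 V : E2 → ℝ} {C0 : ℝ} (hB : Base b0 V C0) {w φ : E2 → ℝ} 
    (hw : IsAdm w) (hφ : ContDiff ℝ (⊤ : ℕ∞) φ) (hc : HasCompactSupport φ) {M : ℝ} 
    (hM : ∀ x, |φ x| ≤ M) (hwb : ∀ x ∈ D, |w x| ≤ C0) :
    IntegrableOn (ii b0 V φ w) D := by
  obtain ⟨-, h2, -⟩ := hI b0 V C0 hB w hw
  have hC := C0_nonneg hB
  have hM0 : 0 ≤ M := (abs_nonneg _).trans (hM 0)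
  have hK : MeasurableSet (tsupport φ) := (isClosed_tsupport φ).measurableSet
  have hfin : volume (tsupport φ) < ⊤ := hc.measure_lt_top
  have hmaj : IntegrableOn (fun x => (Real.exp (4 * (b0 x + w x)) * 
      ‖gradient b0 x + gradient w x‖ ^ 4 + ‖gradient φ x‖ ^ 4) + 
      (tsupport φ).indicator (fun _ => Real.exp (2 * C0) ^ 3 * (C0 * M)) x) D := by
    refine (h2.add (int_grad4 hφ hc).integrableOn).add ?_
    refine Integrable.integrableOn ?_
    exact (integrableOn_const hfin.ne).integrable_indicator hK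
  refine hmaj.mono' ?_ ?_
  · have hb : AEStronglyMeasurable (fun x => b0 x) (volume.restrict D) := 
      hB.c1.continuousOn.aestronglyMeasurable D_open.measurableSet
    have hwc : AEStronglyMeasurable (fun x => w x) (volume.restrict D) := by
      obtain ⟨K, hK⟩ := hw.1
      exact hK.continuous.aestronglyMeasurable
    have hg : AEStronglyMeasurable (fun x => gradient b0 x + gradient w x) (volume.restrict D) :=
      ((meas_gradient b0).add (meas_gradient w)).aestronglyMeasurable
    have hgφ : AEStronglyMeasurable (fun x => gradient φ x) (volume.restrict D) :=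
      (cont_grad hφ).aestronglyMeasurable
    have hexp : AEStronglyMeasurable (fun x => Real.exp (b0 x + w x)) (volume.restrict D) :=
      Real.continuous_exp.comp_aestronglyMeasurable (hb.add hwc)
    unfold ii
    refine (hexp.pow 3).mul ((((hg.norm).pow 2).mul (hg.inner hgφ)).add ?_)
    exact hB.vm.aestronglyMeasurable.mul hφ.continuous.aestronglyMeasurable
  · refine (ae_restrict_iff' D_open.measurableSet).2 (Eventually.of_forall fun x hx => ?_)
    unfold ii
    rw [exp4 (b0 x + w x)]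
    have hvle : Real.exp (b0 x + w x) ≤ Real.exp (2 * C0) := by
      have a1 := (abs_le.1 (hB.bd x hx)).2
      have a2 := (abs_le.1 (hwb x hx)).2
      exact Real.exp_le_exp.2 (by linarith)
    set v := Real.exp (b0 x + w x) with hv
    have hv0 : 0 < v := Real.exp_pos _
    set β := gradient b0 x + gradient w x with hβ
    rw [Real.norm_eq_abs, mul_add]
    refine (abs_add_le _ _).trans (add_le_add ?_ ?_)
    · have h1 : |v ^ 3 * (‖β‖ ^ 2 * inner ℝ β (gradient φ x))| ≤ 
          (v * ‖β‖) ^ 3 * ‖gradient φ x‖ := by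
        rw [abs_mul, abs_mul, abs_of_pos (pow_pos hv0 3), abs_of_nonneg (sq_nonneg ‖β‖)]
        calc v ^ 3 * (‖β‖ ^ 2 * |inner ℝ β (gradient φ x)|) ≤ 
              v ^ 3 * (‖β‖ ^ 2 * (‖β‖ * ‖gradient φ x‖)) := by
                gcongr; exact abs_real_inner_le_norm _ _
          _ = _ := by ring
      refine h1.trans ((cube_mul_le _ _ (by positivity) (norm_nonneg _)).trans (le_of_eq ?_))
      ring
    · by_cases hK : x ∈ tsupport φ
      · rw [indicator_of_mem hK]
        have h5 : |V x| ≤ C0 := by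
          refine (hB.vb x hx).trans ?_
          have : (1:ℝ) ≤ ‖x‖ ^ 4 := one_le_pow₀ (le_of_lt hx)
          rw [div_le_iff₀ (by positivity)]
          nlinarith
        rw [abs_mul, abs_mul, abs_of_pos (pow_pos hv0 3)]
        gcongr
        exact hM x
      · have : φ x = 0 := image_eq_zero_of_notMem_tsupport hK
        rw [indicator_of_notMem hK, this]
        simp

lemma ii_off {b0 V w φ : E2 → ℝ} (hs : tsupport φ ⊆ D) :
    ∫ x, ii b0 V φ w x = ∫ x in D, ii b0 V φ w x := by
  symm
  refine setIntegral_eq_integral_of_forall_compl_eq_zero fun x hx => ?_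
  have hK : x ∉ tsupport φ := fun h => hx (hs h)
  have : φ x = 0 := image_eq_zero_of_notMem_tsupport hK
  unfold ii
  rw [this, grad_off hK]
  simp

/-- the step inequality -/
lemma step (hI : stmtInt) (hE : stmtExt) {b0 V : E2 → ℝ} {C0 : ℝ} (hB : Base b0 V C0) {φ : E2 → ℝ} 
    (hφ : ContDiff ℝ (⊤ : ℕ∞) φ) (hc : HasCompactSupport φ) (hs : tsupport φ ⊆ D) :
    ∃ τ0 : ℝ, 0 < τ0 ∧ ∃ C1 : ℝ, ∀ w, IsAdm w → (∀ x ∈ D, |w x| ≤ C0) → ∀ τ : ℝ, |τ| ≤ τ0 →
      ∃ w', IsAdm w' ∧ J b0 V w' ≤ J b0 V w + 4 * τ * (∫ x, ii b0 V φ w x) + 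
        τ ^ 2 * (4 * (∫ x in D, Real.exp (4 * (b0 x + w x)) * 
          ‖gradient b0 x + gradient w x‖ ^ 4) + C1) := by
  have hC := C0_nonneg hB
  obtain ⟨M, hM⟩ := hφ.continuous.bounded_above_of_compact_support hc
  have hM : ∀ x, |φ x| ≤ M := fun x => by simpa using hM x
  have hM0 : 0 ≤ M := (abs_nonneg _).trans (hM 0)
  have hK : MeasurableSet (tsupport φ) := (isClosed_tsupport φ).measurableSet
  have hfin : volume (tsupport φ) < ⊤ := hc.measure_lt_top
  refine ⟨min 1 (Real.exp (-(2 * C0)) / (2 * (M + 1))), by positivity, 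
    ∫ x in D, (7 * ‖gradient φ x‖ ^ 4 + 
      (tsupport φ).indicator (fun _ => C0 * (6 * Real.exp (8 * C0) + 12 * M ^ 4)) x), ?_⟩
  intro w hw hwb τ hτ
  have hτ1 : |τ| ≤ 1 := hτ.trans (min_le_left _ _)
  have hτ2 : |τ| ≤ Real.exp (-(2 * C0)) / (2 * (M + 1)) := hτ.trans (min_le_right _ _)
  have hpos : ∀ x, 0 < 1 + τ * φ x * Real.exp (-(b0 x) - w x) := by
    intro x
    by_cases hx : x ∈ D
    · have h1 : |τ * φ x * Real.exp (-(b0 x) - w x)| ≤ 1 / 2 := by
        rw [abs_mul, abs_mul, Real.abs_exp]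
        have a1 := (abs_le.1 (hB.bd x hx)).1
        have a2 := (abs_le.1 (hwb x hx)).1
        have h2 : Real.exp (-(b0 x) - w x) ≤ Real.exp (2 * C0) := 
          Real.exp_le_exp.2 (by linarith)
        calc |τ| * |φ x| * Real.exp (-(b0 x) - w x) 
            ≤ (Real.exp (-(2 * C0)) / (2 * (M + 1))) * M * Real.exp (2 * C0) := by
              gcongr
              exact hM x
          _ = (Real.exp (-(2 * C0)) * Real.exp (2 * C0)) * (M / (2 * (M + 1))) := by
              field_simp
          _ ≤ 1 / 2 := by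
              rw [← Real.exp_add]
              simp only [neg_add_cancel, Real.exp_zero, one_mul]
              rw [div_le_div_iff₀ (by positivity) (by norm_num)]
              linarith
      have := (abs_le.1 h1).1
      linarith
    · have : φ x = 0 := image_eq_zero_of_notMem_tsupport fun h => hx (hs h)
      rw [this]; simp
  have hadm : IsAdm (wn b0 w φ τ) := isAdm_wn hE hB hw hφ hc hs hpos
  refine ⟨wn b0 w φ τ, hadm, ?_⟩
  obtain ⟨-, g2, g3⟩ := hI b0 V C0 hB _ hadm
  obtain ⟨-, h2, h3⟩ := hI b0 V C0 hB w hw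
  have hii := int_ii hI hB hw hφ hc hM hwb
  have hrest : IntegrableOn (fun x => 7 * ‖gradient φ x‖ ^ 4 + 
      (tsupport φ).indicator (fun _ => C0 * (6 * Real.exp (8 * C0) + 12 * M ^ 4)) x) D := by
    refine ((int_grad4 hφ hc).const_mul 7).integrableOn.add ?_
    refine Integrable.integrableOn ?_
    exact (integrableOn_const hfin.ne).integrable_indicator hK
  have hLHS : IntegrableOn (fun x => Real.exp (4 * (b0 x + wn b0 w φ τ x)) * 
      (‖gradient b0 x + gradient (wn b0 w φ τ) x‖ ^ 4 + V x)) D := by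
    refine (g2.add g3).congr (Eventually.of_forall fun x => ?_)
    simp only [Pi.add_apply]
    ring
  have hJw : J b0 V w = ∫ x in D, (Real.exp (4 * (b0 x + w x)) * 
      ‖gradient b0 x + gradient w x‖ ^ 4 + Real.exp (4 * (b0 x + w x)) * V x) := by
    unfold J
    refine integral_congr_ae (Eventually.of_forall fun x => ?_)
    simp only
    ring
  rw [hJw, ii_off hs]
  unfold J
  obtain ⟨Kw, hKw⟩ := hw.1
  have hdiff : ∀ᵐ x ∂(volume.restrict D), DifferentiableAt ℝ w x :=
    ae_restrict_of_ae hKw.ae_differentiableAt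
  have hmono := integral_mono_ae (μ := volume.restrict D) hLHS 
    (((h2.add h3).add (hii.const_mul (4 * τ))).add 
      (((h2.const_mul 4).add hrest).const_mul (τ ^ 2))) (by
      filter_upwards [hdiff, ae_restrict_mem D_open.measurableSet] with x hx hxD
      exact pointwise hB hφ hM hpos hτ1 hwb hxD hx)
  refine hmono.trans (le_of_eq ?_)
  have i1 : Integrable (fun x => (Real.exp (4 * (b0 x + w x)) * 
      ‖gradient b0 x + gradient w x‖ ^ 4 + Real.exp (4 * (b0 x + w x)) * V x)) 
      (volume.restrict D) := h2.add h3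
  have i2 : Integrable (fun x => 4 * τ * ii b0 V φ w x) (volume.restrict D) := 
    hii.const_mul (4 * τ)
  have i3 : Integrable (fun x => 4 * (Real.exp (4 * (b0 x + w x)) * 
      ‖gradient b0 x + gradient w x‖ ^ 4)) (volume.restrict D) := h2.const_mul 4
  have i4 : Integrable (fun x => 4 * (Real.exp (4 * (b0 x + w x)) * 
      ‖gradient b0 x + gradient w x‖ ^ 4) + (7 * ‖gradient φ x‖ ^ 4 + 
      (tsupport φ).indicator (fun _ => C0 * (6 * Real.exp (8 * C0) + 12 * M ^ 4)) x)) 
      (volume.restrict D) := i3.add hrest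
  have j1 := integral_add (i1.add i2) (i4.const_mul (τ ^ 2))
  have j2 := integral_add i1 i2
  have j3 := integral_add i3 hrest
  simp only [Pi.add_apply] at j1 j2 j3 ⊢
  rw [j1, j2, integral_const_mul, integral_const_mul, j3, integral_const_mul]

end Pool.Agent.Helper54.PL
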